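import Pool.Agent.W186.AI.Spec

set_option autoImplicit false

namespace Pool.Agent.W566.AI.ZS

open Complex Filter Topology Metric Set
open scoped Real
open Pool.Agent.W186.AI

lemma summ (s : ℂ) (hs : 1 < s.re) :
    Summable fun p : Nat.Primes => log (1 - ((p : ℕ) : ℂ) ^ (-s)) := by
  have h1 : Summable fun n : ℕ => 1 / (n : ℂ) ^ s := Complex.summable_one_div_nat_cpow.mpr hs
  have h2 : Summable fun p : Nat.Primes => 1 / ((p : ℕ) : ℂ) ^ s :=
    h1.comp_injective Nat.Primes.coe_nat_injective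
  have h3 : Summable fun p : Nat.Primes => -(((p : ℕ) : ℂ) ^ (-s)) := by
    refine h2.neg.congr fun p => ?_
    rw [Complex.cpow_neg, one_div]
  have h4 := Complex.summable_log_one_add_of_summable h3
  refine h4.congr fun p => ?_
  rw [← sub_eq_add_neg]

lemma cp (p : Nat.Primes) (x Y : ℝ) (u : ℂ) :
    ((p : ℕ) : ℂ) ^ (-(1 / 2 + ((x : ℂ) + I * (Y : ℂ)) + u)) =
      ph Y p * ((p : ℕ) : ℂ) ^ (-((((1 / 2 + x : ℝ)) : ℂ) + u)) := by
  have hp : ((p : ℕ) : ℂ) ≠ 0 := by exact_mod_cast p.2.ne_zero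
  unfold ph
  rw [← Complex.cpow_add _ _ hp]
  congr 1
  push_cast
  ring

theorem main : S_ZS := by
  intro x Y t hx ht
  have him : |t.im| < 1 := (Complex.abs_im_le_norm t).trans_lt ht
  rw [abs_lt] at him
  have hr1 : 1 < (1 / 2 + ((x : ℂ) + I * (Y : ℂ)) + I * t).re := by
    simp
    linarith [him.1, him.2]
  have hr2 : 1 < (1 / 2 + ((x : ℂ) + I * (Y : ℂ)) - I * t).re := by
    simp
    linarith [him.1, him.2]
  have s1 := summ _ hr1
  have s2 := summ _ hr2
  unfold Z S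
  rw [neg_sub_neg, ← s2.tsum_sub s1, ← neg_div]
  congr 1
  rw [← tsum_neg]
  refine tsum_congr fun p => ?_
  have e1 := cp p x Y (I * t)
  have e2 := cp p x Y (-(I * t))
  rw [← sub_eq_add_neg, ← sub_eq_add_neg] at e2
  rw [e1, e2]
  push_cast
  ring

end Pool.Agent.W566.AI.ZS
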